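import Pool.Agent.H72.EN.Targets

/-!
# The largest sums of tests of one level
-/

set_option autoImplicit false

open Finset Pool.Agent.H6.N4D Pool.Agent.H93.EB Pool.Agent.H28.EN Pool.Agent.H72.EN

namespace Pool.Agent.H38.EL

lemma lg_mono {X : ℕ} {f g : ℕ → ℝ} (h : ∀ n, f n ≤ g n) : lg X f ≤ lg X g :=
  sum_le_sum fun n _ => div_le_div_of_nonneg_right (h n) (Nat.cast_nonneg n)

lemma lg_nonneg {X : ℕ} {f : ℕ → ℝ} (h : ∀ n, 0 ≤ f n) : 0 ≤ lg X f :=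
  sum_nonneg fun n _ => div_nonneg (h n) (Nat.cast_nonneg n)

lemma abs_D_le (q m : ℕ) : |D q m| ≤ q + 1 := by
  have hq : (0 : ℝ) ≤ q := Nat.cast_nonneg q
  unfold D
  split_ifs
  · rw [abs_le]; constructor <;> linarith
  · rw [abs_le]; constructor <;> linarith

lemma zz_nonneg (lam : ℕ → ℝ) (q N n : ℕ) (α : ℝ) (g : ℕ → ℂ) : 0 ≤ zz lam q N n α g :=
  norm_nonneg _

lemma zz_le {lam : ℕ → ℝ} (hl : ∀ n, |lam n| ≤ 1) (q N n : ℕ) (α : ℝ) {g : ℕ → ℂ}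
    (hN : 0 < N) (hg : ∀ m ∈ Ioc n (n + N), ‖g m‖ ≤ 1) : zz lam q N n α g ≤ q + 1 := by
  have hN' : (0 : ℝ) < N := Nat.cast_pos.2 hN
  unfold zz
  rw [norm_div, Complex.norm_natCast, div_le_iff₀ hN']
  refine (norm_sum_le _ _).trans ?_
  have h : ∀ m ∈ Ioc n (n + N), ‖(lam m : ℂ) * (D q m : ℂ) * ee (-(α * m)) * g m‖ ≤
      (q : ℝ) + 1 := by
    intro m hm
    rw [norm_mul, norm_mul, norm_mul, norm_ee, mul_one, Complex.norm_real, Complex.norm_real,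
      Real.norm_eq_abs, Real.norm_eq_abs]
    have h1 : |lam m| * |D q m| ≤ (q : ℝ) + 1 :=
      (mul_le_of_le_one_left (abs_nonneg _) (hl m)).trans (abs_D_le q m)
    exact (mul_le_of_le_one_right (by positivity) (hg m hm)).trans h1
  refine (sum_le_sum h).trans ?_
  rw [sum_const, Nat.card_Ioc, nsmul_eq_mul]
  have : n + N - n = N := by omega
  rw [this]
  exact le_of_eq (mul_comm _ _)

/-- the crude bound -/
noncomputable def KB (X m : ℕ) : ℝ := lg X (fun _ => ∑ q ∈ QQ m, 1 / (q : ℝ) * ((q : ℝ) + 1) ^ 2)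

lemma bv_nonneg (lam : ℕ → ℝ) (X m : ℕ) (α : ℕ → ℕ → ℝ) (g : ℕ → ℕ → ℕ → ℂ) :
    0 ≤ bv lam X m α g :=
  lg_nonneg fun _ => sum_nonneg fun q _ =>
    mul_nonneg (one_div_nonneg.2 (Nat.cast_nonneg q)) (sq_nonneg _)

lemma bv_le {lam : ℕ → ℝ} (hl : ∀ n, |lam n| ≤ 1) (X m : ℕ) (α : ℕ → ℕ → ℝ)
    {g : ℕ → ℕ → ℕ → ℂ} (hg : ∀ n, ∀ q ∈ QQ m, BV (2 ^ m) n (g n q)) :
    bv lam X m α g ≤ KB X m := by
  refine lg_mono fun n => sum_le_sum fun q hq => ?_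
  refine mul_le_mul_of_nonneg_left ?_ (one_div_nonneg.2 (Nat.cast_nonneg q))
  exact pow_le_pow_left₀ (zz_nonneg _ _ _ _ _ _)
    (zz_le hl q _ n _ (by positivity) (hg n q hq).bd) 2

lemma BV_one (N n : ℕ) : BV N n (fun _ => (1 : ℂ)) :=
  ⟨fun _ _ => by simp, by simp⟩

theorem pf_BAB : T_BAB := by
  intro lam X m hl
  have hone : ∀ n, ∀ q ∈ QQ m, BV (2 ^ m) n ((fun _ _ _ => (1 : ℂ)) n q : ℕ → ℂ) :=
    fun n q _ => BV_one _ n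
  have bddA : BddAbove {x | ∃ (α : ℕ → ℝ) (g : ℕ → ℕ → ℕ → ℂ),
      (∀ n, ∀ q ∈ QQ m, BV (2 ^ m) n (g n q)) ∧ x = bv lam X m (fun n _ => α n) g} := by
    refine ⟨KB X m, ?_⟩
    rintro x ⟨α, g, hg, rfl⟩
    exact bv_le hl X m _ hg
  have neA : {x | ∃ (α : ℕ → ℝ) (g : ℕ → ℕ → ℕ → ℂ),
      (∀ n, ∀ q ∈ QQ m, BV (2 ^ m) n (g n q)) ∧ x = bv lam X m (fun n _ => α n) g}.Nonempty :=
    ⟨_, fun _ => 0, fun _ _ _ => 1, fun n q _ => BV_one _ n, rfl⟩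
  have lift0 : ∀ β : ℕ → ℕ → ℝ, Lift m β β := by
    intro β n q _
    refine ⟨0, ?_⟩
    have : β n q - β n q - ((0 : ℤ) : ℝ) / q = 0 := by simp
    rw [this]
    have h0 : nd 0 = 0 := by simp [nd]
    rw [h0]
    positivity
  have bddB : BddAbove {x | ∃ β : ℕ → ℕ → ℝ, ∀ α : ℕ → ℕ → ℝ, Lift m β α →
      x ≤ bv lam X m α (fun _ _ _ => 1)} := by
    refine ⟨KB X m, ?_⟩
    rintro x ⟨β, hβ⟩
    exact (hβ β (lift0 β)).trans (bv_le hl X m _ hone)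
  have memB : (0 : ℝ) ∈ {x | ∃ β : ℕ → ℕ → ℝ, ∀ α : ℕ → ℕ → ℝ, Lift m β α →
      x ≤ bv lam X m α (fun _ _ _ => 1)} :=
    ⟨fun _ _ => 0, fun α _ => bv_nonneg _ _ _ _ _⟩
  have h3 : ∀ (α : ℕ → ℝ) (g : ℕ → ℕ → ℕ → ℂ), (∀ n, ∀ q ∈ QQ m, BV (2 ^ m) n (g n q)) →
      bv lam X m (fun n _ => α n) g ≤ bA lam X m :=
    fun α g hg => le_csSup bddA ⟨α, g, hg, rfl⟩
  refine ⟨(bv_nonneg _ _ _ _ _).trans (h3 (fun _ => 0) (fun _ _ _ => 1) hone),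
    le_csSup bddB memB, h3, ?_, ?_, ?_⟩
  · intro β
    by_contra hc
    push Not at hc
    have : bB lam X m + 1 ≤ bB lam X m :=
      le_csSup bddB ⟨β, fun α hα => (hc α hα).le⟩
    linarith
  · have hlt : bA lam X m - 1 < bA lam X m := by linarith
    obtain ⟨x, ⟨α, g, hg, rfl⟩, hx⟩ := exists_lt_of_lt_csSup neA hlt
    exact ⟨α, g, hg, by linarith⟩
  · have hlt : bB lam X m - 1 < bB lam X m := by linarith
    obtain ⟨x, ⟨β, hβ⟩, hx⟩ := exists_lt_of_lt_csSup ⟨0, memB⟩ hlt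
    exact ⟨β, fun α hα => by have := hβ α hα; linarith⟩

end Pool.Agent.H38.EL
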