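import Pool.Agent.H72.EN.Targets

/-!
# The inequality of Bessel for the largest sums of tests
-/

set_option autoImplicit false

open Finset Pool.Agent.H6.N4D Pool.Agent.H93.EB Pool.Agent.H28.EN Pool.Agent.H72.EN

namespace Pool.Agent.H38.EL

theorem pf_CHN (hBAB : T_BAB) (hBES : T_BES) : T_CHN := by
  obtain ⟨B, C₀, hB, hC₀, hBES⟩ := hBES
  refine ⟨B, 2 * C₀ + 2, hB, by linarith, fun R => ?_⟩
  obtain ⟨s₀, hs₀⟩ := hBES R (1 / 10 ^ 4) (by norm_num)
  refine ⟨s₀, fun s X K k₁ lam e m hs hX he hl hbase hK hm0 hmB hmk => ?_⟩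
  obtain ⟨hA, hBB⟩ := hs₀ s X K k₁ lam e m hs hX hl hbase hK hm0 hmB hmk
  have ab := fun i => hBAB lam X (m i) hl
  choose α g hg hbA using fun i => (ab i).2.2.2.2.1
  choose β hβ using fun i => (ab i).2.2.2.2.2
  have h1 : ∑ i ∈ range K, bA lam X (m i) ≤
      (C₀ * e + (1 / 2) ^ (s / B)) * Real.log X + C₀ * K * (k₁ + 1) + K := by
    have h2 := hA α g (fun i _ n q hq => hg i n q hq)
    have h3 : besSum lam X K m (fun i n _ => α i n) g =
        ∑ i ∈ range K, bv lam X (m i) (fun n _ => α i n) (g i) := rfl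
    have h4 : ∑ i ∈ range K, bA lam X (m i) ≤
        ∑ i ∈ range K, (bv lam X (m i) (fun n _ => α i n) (g i) + 1) :=
      sum_le_sum fun i _ => hbA i
    rw [sum_add_distrib, sum_const, card_range, nsmul_eq_mul, mul_one] at h4
    rw [h3] at h2
    linarith
  have h2 : ∑ i ∈ range K, bB lam X (m i) ≤
      (C₀ * e + (1 / 2) ^ (s / B)) * Real.log X + C₀ * K * (k₁ + 1) + K := by
    obtain ⟨a, ha, h2⟩ := hBB β
    have h3 : besSum lam X K m a (fun _ _ _ _ => 1) =
        ∑ i ∈ range K, bv lam X (m i) (a i) (fun _ _ _ => 1) := rfl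
    have h4 : ∑ i ∈ range K, bB lam X (m i) ≤
        ∑ i ∈ range K, (bv lam X (m i) (a i) (fun _ _ _ => 1) + 1) :=
      sum_le_sum fun i hi => hβ i (a i) (fun n q hq => ha i (mem_range.1 hi) n q hq)
    rw [sum_add_distrib, sum_const, card_range, nsmul_eq_mul, mul_one] at h4
    rw [h3] at h2
    linarith
  rw [sum_add_distrib]
  have hlog : 0 ≤ Real.log X := Real.log_natCast_nonneg X
  have h3 : 0 ≤ (C₀ + 2) * e * Real.log X :=
    mul_nonneg (mul_nonneg (by linarith) he) hlog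
  have h4 : (0 : ℝ) ≤ K * k₁ := by positivity
  nlinarith

end Pool.Agent.H38.EL
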